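import Pool.Agent.H84.FD.S
import Pool.Agent.H42.K2.Cel

/-! MP_1f2761, k = 2: row MAS (the mass is at most `‖R_0‖`) -/

set_option autoImplicit false

namespace Pool.FD
open Finset Pool.K2 MeasureTheory

theorem mas : MASStmt := by
  intro r p hp P hP Om hOm y s1 s2
  have hP' : (P : ℝ) ≠ 0 := by
    have : P ≠ 0 := by omega
    exact_mod_cast this
  have e1 : Rs r p P Om 0 y s1 s2 = ((∑ n ∈ range (2 ^ r), ∑ a ∈ range (2 ^ r),
      p n a * omT P Om (s1 + y * n / P) (s2 + y * a / P) : ℝ) : ℂ) := by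
    unfold Rs
    rw [Complex.ofReal_sum]
    refine Finset.sum_congr rfl fun n _ => ?_
    rw [Complex.ofReal_sum]
    refine Finset.sum_congr rfl fun a _ => ?_
    have : ((0 : ℤ × ℤ).1 : ℝ) * ((P : ℝ) * s1 + y * n) + ((0 : ℤ × ℤ).2 : ℝ) * ((P : ℝ) * s2 + y * a) = 0 := by
      simp
    rw [this, ex_zero, mul_one]
  rw [e1, Complex.norm_real]
  refine le_trans (Finset.sum_le_sum fun n _ => Finset.sum_le_sum fun a _ => ?_) (le_abs_self _)
  refine mul_le_mul_of_nonneg_left ?_ (hp.1 n a)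
  have h := omT_ge (P := P) hP Om (fun z₁ _ z₂ _ => hOm z₁ z₂) (s1 + y * n / P) (s2 + y * a / P)
  have e2 : (P : ℝ) * (s1 + y * n / P) = P * s1 + y * n := by field_simp
  have e3 : (P : ℝ) * (s2 + y * a / P) = P * s2 + y * a := by field_simp
  rw [e2, e3] at h
  exact h

end Pool.FD
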