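import Pool.Agent.H84.FD.S
import Pool.Agent.H42.K2.Sca

/-! MP_1f2761, k = 2: row RFR (refining keeps regularity) -/

set_option autoImplicit false

namespace Pool.FD
open Finset Pool.K2 MeasureTheory

theorem rfr : RFRStmt := by
  intro q t u kap C om hq hkap hom hR hC i hi a ha b hb
  have hq0 : 0 < q := by omega
  have hqr : (1 : ℝ) ≤ (q : ℝ) := by exact_mod_cast (by omega : 1 ≤ q)
  have hqr0 : (0 : ℝ) < (q : ℝ) := by linarith
  rcases Nat.lt_or_ge t i with hit | hit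
  · -- the cell lies inside one point of level `t`
    obtain ⟨j, rfl⟩ : ∃ j, i = t + j := ⟨i - t, by omega⟩
    have hju : j ≤ u := by omega
    have e0 : t + u - (t + j) = u - j := by omega
    rw [e0]
    have hcst : ∀ c < q ^ (t + j), ∀ z < q ^ (u - j), (c * q ^ (u - j) + z) / q ^ u = c / q ^ j := by
      intro c _ z hz
      have e1 : q ^ u = q ^ (u - j) * q ^ j := by rw [← pow_add]; congr 1; omega
      rw [e1, ← Nat.div_div_eq_div_mul]
      congr 1
      have hp : 0 < q ^ (u - j) := pow_pos hq0 _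
      rw [mul_comm, Nat.mul_add_div hp, Nat.div_eq_of_lt hz, add_zero]
    have ha' : a / q ^ j < q ^ t := by
      rw [Nat.div_lt_iff_lt_mul (pow_pos hq0 _), ← pow_add]
      exact ha
    have hb' : b / q ^ j < q ^ t := by
      rw [Nat.div_lt_iff_lt_mul (pow_pos hq0 _), ← pow_add]
      exact hb
    have e2 : ∑ z₁ ∈ range (q ^ (u - j)), ∑ z₂ ∈ range (q ^ (u - j)),
        rf (q ^ u) om (a * q ^ (u - j) + z₁) (b * q ^ (u - j) + z₂) =
        ∑ z₁ ∈ range (q ^ (u - j)), ∑ z₂ ∈ range (q ^ (u - j)), om (a / q ^ j) (b / q ^ j) := by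
      refine Finset.sum_congr rfl fun z₁ hz₁ => Finset.sum_congr rfl fun z₂ hz₂ => ?_
      unfold rf
      rw [hcst a ha z₁ (mem_range.mp hz₁), hcst b hb z₂ (mem_range.mp hz₂)]
    rw [e2]
    have h1 := hR t le_rfl (a / q ^ j) ha' (b / q ^ j) hb'
    simp only [Nat.sub_self, pow_zero, Finset.sum_range_one, mul_one, add_zero, one_pow] at h1
    simp only [Finset.sum_const, card_range, nsmul_eq_mul]
    have h2 : ((q : ℝ) ^ t) ^ kap ≤ ((q : ℝ) ^ (t + j)) ^ kap := by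
      refine Real.rpow_le_rpow (by positivity) ?_ hkap
      exact pow_le_pow_right₀ hqr (by omega)
    have h3 : om (a / q ^ j) (b / q ^ j) ≤ C * ((q : ℝ) ^ (t + j)) ^ kap :=
      h1.trans (mul_le_mul_of_nonneg_left h2 hC)
    have h4 : (0 : ℝ) ≤ ((q : ℝ) ^ (u - j)) ^ 2 := by positivity
    calc ((q ^ (u - j) : ℕ) : ℝ) * (((q ^ (u - j) : ℕ) : ℝ) * om (a / q ^ j) (b / q ^ j))
        = ((q : ℝ) ^ (u - j)) ^ 2 * om (a / q ^ j) (b / q ^ j) := by push_cast; ring
      _ ≤ ((q : ℝ) ^ (u - j)) ^ 2 * (C * ((q : ℝ) ^ (t + j)) ^ kap) :=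
          mul_le_mul_of_nonneg_left h3 h4
      _ = _ := by ring
  · have e0 : q ^ (t + u - i) = q ^ (t - i) * q ^ u := by rw [← pow_add]; congr 1; omega
    rw [e0]
    have hp : 0 < q ^ u := pow_pos hq0 _
    have e1 : ∀ c z y : ℕ, y < q ^ u → (c * (q ^ (t - i) * q ^ u) + (z * q ^ u + y)) / q ^ u =
        c * q ^ (t - i) + z := by
      intro c z y hy
      rw [show c * (q ^ (t - i) * q ^ u) + (z * q ^ u + y) = q ^ u * (c * q ^ (t - i) + z) + y by ring,
        Nat.mul_add_div hp, Nat.div_eq_of_lt hy, add_zero]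
    have e2 := sum_cells₂ (q ^ (t - i)) (q ^ u) (fun z₁ z₂ =>
      rf (q ^ u) om (a * (q ^ (t - i) * q ^ u) + z₁) (b * (q ^ (t - i) * q ^ u) + z₂))
    rw [e2]
    have e3 : ∑ z₁ ∈ range (q ^ (t - i)), ∑ z₂ ∈ range (q ^ (t - i)),
        ∑ y₁ ∈ range (q ^ u), ∑ y₂ ∈ range (q ^ u),
          rf (q ^ u) om (a * (q ^ (t - i) * q ^ u) + (z₁ * q ^ u + y₁))
            (b * (q ^ (t - i) * q ^ u) + (z₂ * q ^ u + y₂)) =
        ∑ z₁ ∈ range (q ^ (t - i)), ∑ z₂ ∈ range (q ^ (t - i)), ((q : ℝ) ^ u) ^ 2 *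
          om (a * q ^ (t - i) + z₁) (b * q ^ (t - i) + z₂) := by
      refine Finset.sum_congr rfl fun z₁ _ => Finset.sum_congr rfl fun z₂ _ => ?_
      have e4 : ∑ y₁ ∈ range (q ^ u), ∑ y₂ ∈ range (q ^ u),
          rf (q ^ u) om (a * (q ^ (t - i) * q ^ u) + (z₁ * q ^ u + y₁))
            (b * (q ^ (t - i) * q ^ u) + (z₂ * q ^ u + y₂)) =
          ∑ y₁ ∈ range (q ^ u), ∑ y₂ ∈ range (q ^ u),
            om (a * q ^ (t - i) + z₁) (b * q ^ (t - i) + z₂) := by
        refine Finset.sum_congr rfl fun y₁ hy₁ => Finset.sum_congr rfl fun y₂ hy₂ => ?_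
        unfold rf
        rw [e1 a z₁ y₁ (mem_range.mp hy₁), e1 b z₂ y₂ (mem_range.mp hy₂)]
      rw [e4]
      simp only [Finset.sum_const, card_range, nsmul_eq_mul]
      push_cast
      ring
    rw [e3]
    simp only [← Finset.mul_sum]
    have h1 := hR i hit a ha b hb
    have h4 : (0 : ℝ) ≤ ((q : ℝ) ^ u) ^ 2 := by positivity
    refine (mul_le_mul_of_nonneg_left h1 h4).trans (le_of_eq ?_)
    have e5 : (q : ℝ) ^ (t + u - i) = (q : ℝ) ^ (t - i) * (q : ℝ) ^ u := by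
      rw [← pow_add]; congr 1; omega
    rw [e5]
    ring

end Pool.FD
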