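import Pool.Agent.H84.FD.S
import Pool.Agent.H42.K2.Par
import Pool.Agent.H42.K2.Sca

/-! MP_1f2761, k = 2: row SHS (summation by shells) -/

set_option autoImplicit false

namespace Pool.FD
open Finset Pool.K2 MeasureTheory

theorem norm_omh_le {P : ℕ} (hP : 1 ≤ P) (Om : ℕ → ℕ → ℝ) {m₁ m₂ : ℤ} (h1 : m₁ ∈ Ioo (-(P : ℤ)) P)
    (h2 : m₂ ∈ Ioo (-(P : ℤ)) P) : ‖omh P Om m₁ m₂‖ ^ 2 ≤ c4 ^ 2 * ‖omd P Om m₁ m₂‖ ^ 2 := by
  have hP0 : (0 : ℝ) < P := by exact_mod_cast hP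
  have hw : ∀ m ∈ Ioo (-(P : ℤ)) P, 0 ≤ 1 - |(m : ℝ)| / P ∧ 1 - |(m : ℝ)| / P ≤ 1 := by
    intro m hm
    simp only [mem_Ioo] at hm
    have h3 : |(m : ℝ)| ≤ P := by
      rw [abs_le]
      constructor
      · have : (-(P : ℤ) : ℝ) ≤ m := by exact_mod_cast hm.1.le
        simpa using this
      · exact_mod_cast hm.2.le
    constructor
    · have : |(m : ℝ)| / P ≤ 1 := by rw [div_le_one hP0]; exact h3
      linarith
    · have : 0 ≤ |(m : ℝ)| / P := by positivity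
      linarith
  obtain ⟨a1, a2⟩ := hw m₁ h1
  obtain ⟨b1, b2⟩ := hw m₂ h2
  unfold omh
  rw [norm_mul, norm_mul, norm_mul, ex_norm, Complex.norm_real, Complex.norm_real,
    Real.norm_of_nonneg c4_pos.le, Real.norm_of_nonneg (mul_nonneg a1 b1), mul_one, ← mul_pow]
  refine pow_le_pow_left₀ (by have := c4_pos; positivity) ?_ 2
  have h5 : (1 - |(m₁ : ℝ)| / P) * (1 - |(m₂ : ℝ)| / P) ≤ 1 := mul_le_one₀ a2 b1 b2
  have h6 : 0 ≤ c4 * ‖omd P Om m₁ m₂‖ := mul_nonneg c4_pos.le (norm_nonneg _)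
  calc _ ≤ c4 * ‖omd P Om m₁ m₂‖ * 1 := mul_le_mul_of_nonneg_left h5 h6
    _ = _ := mul_one _

theorem c4_sq89 : c4 ^ 2 * 170 ≤ 6400 := by
  have h1 := c4_lt
  have h2 := c4_pos
  nlinarith

theorem box_le {q t i : ℕ} (hq : 2 ≤ q) (hi : i ≤ t) {kap C0 : ℝ} {Om : ℕ → ℕ → ℝ}
    (h0 : ∀ z1 z2, 0 ≤ Om z1 z2) (hR : Reg q t kap C0 Om) :
    ∑ m ∈ bx (q ^ i), ‖omh (q ^ t) Om m.1 m.2‖ ^ 2 ≤ 6400 * C0 ^ 2 * ((q : ℝ) ^ i) ^ kap := by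
  have hq1 : 1 ≤ q := by omega
  have hP : 1 ≤ q ^ t := Nat.one_le_pow _ _ hq1
  have hmono : q ^ i ≤ q ^ t := Nat.pow_le_pow_right hq1 hi
  have h1 := scale hq1 hi (fun z₁ _ z₂ _ => h0 z₁ z₂) hR
  have h2 : ∑ m ∈ bx (q ^ i), ‖omh (q ^ t) Om m.1 m.2‖ ^ 2 ≤
      c4 ^ 2 * ∑ m₁ ∈ Ioo (-(q ^ i : ℕ) : ℤ) (q ^ i : ℕ), ∑ m₂ ∈ Ioo (-(q ^ i : ℕ) : ℤ) (q ^ i : ℕ),
        ‖omd (q ^ t) Om m₁ m₂‖ ^ 2 := by
    unfold bx
    rw [Finset.sum_product, Finset.mul_sum]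
    refine Finset.sum_le_sum fun m₁ hm₁ => ?_
    rw [Finset.mul_sum]
    refine Finset.sum_le_sum fun m₂ hm₂ => ?_
    have hsub : ∀ m : ℤ, m ∈ Ioo (-((q ^ i : ℕ) : ℤ)) ((q ^ i : ℕ) : ℤ) →
        m ∈ Ioo (-((q ^ t : ℕ) : ℤ)) ((q ^ t : ℕ) : ℤ) := by
      intro m hm
      simp only [mem_Ioo] at hm ⊢
      have : ((q ^ i : ℕ) : ℤ) ≤ ((q ^ t : ℕ) : ℤ) := by exact_mod_cast hmono
      omega
    exact norm_omh_le hP Om (hsub _ hm₁) (hsub _ hm₂)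
  refine h2.trans ?_
  have h3 : 0 ≤ C0 ^ 2 * ((q : ℝ) ^ i) ^ kap := by positivity
  calc c4 ^ 2 * _ ≤ c4 ^ 2 * (170 * C0 ^ 2 * ((q : ℝ) ^ i) ^ kap) :=
        mul_le_mul_of_nonneg_left h1 (by positivity)
    _ = (c4 ^ 2 * 170) * (C0 ^ 2 * ((q : ℝ) ^ i) ^ kap) := by ring
    _ ≤ 6400 * (C0 ^ 2 * ((q : ℝ) ^ i) ^ kap) := mul_le_mul_of_nonneg_right c4_sq89 h3
    _ = _ := by ring

theorem nm_lt_iff {K : ℕ} {m : ℤ × ℤ} : m ∈ bx K ↔ nm m < K := by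
  unfold bx nm
  rw [mem_product, mem_Ioo, mem_Ioo, max_lt_iff, abs_lt, abs_lt]
  constructor
  · rintro ⟨⟨h1, h2⟩, h3, h4⟩
    refine ⟨⟨?_, ?_⟩, ?_, ?_⟩
    · have : ((-(K : ℤ) : ℤ) : ℝ) < (m.1 : ℝ) := by exact_mod_cast h1
      push_cast at this
      exact this
    · exact_mod_cast h2
    · have : ((-(K : ℤ) : ℤ) : ℝ) < (m.2 : ℝ) := by exact_mod_cast h3
      push_cast at this
      exact this
    · exact_mod_cast h4
  · rintro ⟨⟨h1, h2⟩, h3, h4⟩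
    refine ⟨⟨?_, ?_⟩, ?_, ?_⟩
    · have : ((-(K : ℤ) : ℤ) : ℝ) < (m.1 : ℝ) := by push_cast; exact h1
      exact_mod_cast this
    · exact_mod_cast h2
    · have : ((-(K : ℤ) : ℤ) : ℝ) < (m.2 : ℝ) := by push_cast; exact h3
      exact_mod_cast this
    · exact_mod_cast h4

theorem one_le_nm {m : ℤ × ℤ} (h : m ≠ 0) : 1 ≤ nm m := by
  unfold nm
  by_cases h1 : m.1 = 0
  · have h2 : m.2 ≠ 0 := by
      intro h2
      exact h (Prod.ext h1 h2)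
    refine le_max_of_le_right ?_
    have h3 : 1 ≤ |m.2| := Int.one_le_abs h2
    have h4 : ((1 : ℤ) : ℝ) ≤ ((|m.2| : ℤ) : ℝ) := by exact_mod_cast h3
    simpa using h4
  · refine le_max_of_le_left ?_
    have h3 : 1 ≤ |m.1| := Int.one_le_abs h1
    have h4 : ((1 : ℤ) : ℝ) ≤ ((|m.1| : ℤ) : ℝ) := by exact_mod_cast h3
    simpa using h4

/-- every frequency of `bx (q ^ t)` is zero or in a shell -/
theorem mem_shell {q t : ℕ} {m : ℤ × ℤ} (hm : m ∈ bx (q ^ t)) (h0 : m ≠ 0) :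
    ∃ i ∈ Icc 1 t, m ∈ sh q i (q ^ t) := by
  have h1 := nm_lt_iff.mp hm
  push_cast at h1
  have hex : ∃ i : ℕ, nm m < (q : ℝ) ^ i := ⟨t, h1⟩
  classical
  set i := Nat.find hex with hi
  have h2 : nm m < (q : ℝ) ^ i := Nat.find_spec hex
  have h3 : i ≤ t := Nat.find_min' hex h1
  have h4 : 1 ≤ i := by
    by_contra h
    have h5 : i = 0 := by omega
    rw [h5, pow_zero] at h2
    have := one_le_nm h0
    linarith
  refine ⟨i, mem_Icc.mpr ⟨h4, h3⟩, ?_⟩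
  unfold sh
  rw [mem_filter]
  refine ⟨hm, ?_, h2⟩
  have h5 : ¬ nm m < (q : ℝ) ^ (i - 1) := Nat.find_min hex (by omega : i - 1 < i)
  linarith

theorem sh_subset {q i P : ℕ} : sh q i P ⊆ bx (q ^ i) := by
  intro m hm
  unfold sh at hm
  rw [mem_filter] at hm
  rw [nm_lt_iff]
  push_cast
  exact hm.2.2

theorem sum_biU {ι α : Type} [DecidableEq α] (s : Finset ι) (T : ι → Finset α) (g : α → ℝ)
    (hg : ∀ x, 0 ≤ g x) : ∑ m ∈ s.biUnion T, g m ≤ ∑ i ∈ s, ∑ m ∈ T i, g m := by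
  classical
  induction s using Finset.induction_on with
  | empty => simp
  | insert a s ha ih =>
    rw [Finset.biUnion_insert, Finset.sum_insert ha]
    have h1 := Finset.sum_union_inter (s₁ := T a) (s₂ := s.biUnion T) (f := g)
    have h2 : 0 ≤ ∑ m ∈ T a ∩ s.biUnion T, g m := Finset.sum_nonneg fun m _ => hg m
    linarith

theorem shs : SHSStmt := by
  intro q t kap C0 Om f hq hkap hC0 hOm hR hf hanti
  classical
  have hq1 : 1 ≤ q := by omega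
  have hqr : (1 : ℝ) ≤ (q : ℝ) := by exact_mod_cast hq1
  have hterm : ∀ m : ℤ × ℤ, 0 ≤ ‖omh (q ^ t) Om m.1 m.2‖ ^ 2 * f (nm m) :=
    fun m => mul_nonneg (by positivity) (hf _)
  have hsub : bx (q ^ t) ⊆ insert (0 : ℤ × ℤ) ((Icc 1 t).biUnion fun i => sh q i (q ^ t)) := by
    intro m hm
    by_cases h0 : m = 0
    · rw [h0]
      exact mem_insert_self _ _
    · refine mem_insert_of_mem ?_
      rw [mem_biUnion]
      obtain ⟨i, hi, hmi⟩ := mem_shell hm h0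
      exact ⟨i, hi, hmi⟩
  have h1 : ∑ m ∈ bx (q ^ t), ‖omh (q ^ t) Om m.1 m.2‖ ^ 2 * f (nm m) ≤
      ‖omh (q ^ t) Om 0 0‖ ^ 2 * f 0 +
        ∑ i ∈ Icc 1 t, ∑ m ∈ sh q i (q ^ t), ‖omh (q ^ t) Om m.1 m.2‖ ^ 2 * f (nm m) := by
    refine (Finset.sum_le_sum_of_subset_of_nonneg hsub fun m _ _ => hterm m).trans ?_
    have h2 : ∑ m ∈ insert (0 : ℤ × ℤ) ((Icc 1 t).biUnion fun i => sh q i (q ^ t)),
        ‖omh (q ^ t) Om m.1 m.2‖ ^ 2 * f (nm m) ≤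
        ‖omh (q ^ t) Om (0 : ℤ × ℤ).1 (0 : ℤ × ℤ).2‖ ^ 2 * f (nm 0) +
        ∑ m ∈ (Icc 1 t).biUnion fun i => sh q i (q ^ t),
          ‖omh (q ^ t) Om m.1 m.2‖ ^ 2 * f (nm m) := by
      by_cases h0 : (0 : ℤ × ℤ) ∈ (Icc 1 t).biUnion fun i => sh q i (q ^ t)
      · rw [Finset.insert_eq_of_mem h0]
        have := hterm 0
        linarith
      · rw [Finset.sum_insert h0]
    refine h2.trans ?_
    have h3 : nm (0 : ℤ × ℤ) = 0 := by simp [nm]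
    rw [h3]
    refine add_le_add le_rfl ?_
    exact sum_biU (Icc 1 t) (fun i => sh q i (q ^ t)) _ hterm
  have h4 : ‖omh (q ^ t) Om 0 0‖ ^ 2 * f 0 ≤ 6400 * C0 ^ 2 * f 0 := by
    refine mul_le_mul_of_nonneg_right ?_ (hf 0)
    have h5 := box_le (i := 0) hq (Nat.zero_le t) hOm hR
    have h6 : (0 : ℤ × ℤ) ∈ bx (q ^ 0) := by
      rw [nm_lt_iff]
      simp [nm]
    have h7 := (Finset.single_le_sum (f := fun m : ℤ × ℤ => ‖omh (q ^ t) Om m.1 m.2‖ ^ 2)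
      (fun m _ => by positivity) h6).trans h5
    simpa using h7
  have h8 : ∀ i ∈ Icc 1 t, ∑ m ∈ sh q i (q ^ t), ‖omh (q ^ t) Om m.1 m.2‖ ^ 2 * f (nm m) ≤
      6400 * C0 ^ 2 * (((q : ℝ) ^ i) ^ kap * f ((q : ℝ) ^ (i - 1))) := by
    intro i hi
    rw [mem_Icc] at hi
    have h9 : ∑ m ∈ sh q i (q ^ t), ‖omh (q ^ t) Om m.1 m.2‖ ^ 2 * f (nm m) ≤
        ∑ m ∈ sh q i (q ^ t), ‖omh (q ^ t) Om m.1 m.2‖ ^ 2 * f ((q : ℝ) ^ (i - 1)) := by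
      refine Finset.sum_le_sum fun m hm => ?_
      refine mul_le_mul_of_nonneg_left ?_ (by positivity)
      unfold sh at hm
      rw [mem_filter] at hm
      exact hanti hm.2.1
    rw [← Finset.sum_mul] at h9
    have h10 : ∑ m ∈ sh q i (q ^ t), ‖omh (q ^ t) Om m.1 m.2‖ ^ 2 ≤
        6400 * C0 ^ 2 * ((q : ℝ) ^ i) ^ kap :=
      (Finset.sum_le_sum_of_subset_of_nonneg sh_subset fun m _ _ => by positivity).trans
        (box_le hq hi.2 hOm hR)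
    refine h9.trans ((mul_le_mul_of_nonneg_right h10 (hf _)).trans (le_of_eq ?_))
    ring
  refine h1.trans ((add_le_add h4 (Finset.sum_le_sum h8)).trans (le_of_eq ?_))
  rw [← Finset.mul_sum]
  ring

end Pool.FD
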